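import Pool.Agent.Q67.OR.Fin

/-!
MP_425be5_nt, Q1: for every quadratic irrational `ξ` the set of the records of the deterministic
random walk `S_n(2 ξ) = ∑_{j ≤ n} (-1)^⌊2 j ξ⌋` is `ξ`-Ostrowski automatic.
-/

set_option autoImplicit false

namespace Pool.Agent.Results.MP_425be5_nt.OstrowskiAutomatic

open Pool.Agent.Q67.OR

theorem result : ∀ ξ : ℝ, Irrational ξ →
    (∃ a b c : ℤ, a ≠ 0 ∧ (a : ℝ) * ξ ^ 2 + b * ξ + c = 0) →
    ∃ K : ℕ, (∀ n, 1 ≤ n → pq ξ n ≤ K) ∧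
      ∃ (σ : Type) (_ : Fintype σ) (M : DFA (Fin (K + 1)) σ), ∀ w : List (Fin (K + 1)),
        w ∈ M.accepts ↔ ∃ N : ℕ, IsRep ξ (w.map Fin.val) N ∧ IsRecord (2 * ξ) N :=
  fun ξ hirr hq => main ξ hirr hq

end Pool.Agent.Results.MP_425be5_nt.OstrowskiAutomatic
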